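import Mathlib
import Pool.Agent.L0h73.LT.Cor

/-!
# Integer 3SUM: circuits of linear inequalities

The input consists of `2 n` distinct integers of absolute value at most `(2 n) ^ 3` (`Valid`); do
three different ones of them have the sum zero (`zeroSum`)?

A gate of a circuit (`Circuit`) tests an inequality `θ < ∑ i, φ i (x i) + (weights of other gates)`.
Here `φ i` is a function of the `i`-th of the first `n` numbers which is monotone, or antitone, or a
linear form, with real coefficients, in the binary digits of the number (`Tame`); the second sum is
taken over the earlier gates with the value `true`, with arbitrary real weights; and the threshold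
`θ` is an arbitrary real function of the last `n` numbers. So a gate may test an arbitrary linear
inequality, with real coefficients of any size, in all the numbers, or in all their digits. The output
is a function of the values of the gates, and of the last `n` numbers. Let `upper` be the number of
gates which have wires from other gates, and let `sqrtSupp` be the sum over the other gates of
`√w`, where `w` is the number of the first `n` numbers which have an influence on the sum of the gate.

1. Let `P r` be a random circuit (with the probability `μ r`) which gives the right answer with
   probability at least `2 / 3` for every input, and let its output function have at most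
   `D ^ (|A| + 1)` subfunctions on every set `A` of gates (`FewSub`). Then
   `n ^ 2 ≤ 25 * (n * log₂ (3 D) + log₂ ((s + 1) D n) * 𝔼 (n * upper + 2 * log₂ n * sqrtSupp))`,
   where `s` is the number of gates.
2. This holds, with `D = (n ^ 2 + 2) ^ 2`, if the output is a threshold function with arbitrary
   weights, or a symmetric function, of the gates, or a formula over the full binary basis or a
   branching program (with at most `n ^ 2` nodes) which reads every gate at most once (`Simple`). In
   these cases, if `n ≥ 10000` and the mean of `upper` is at most `n / (700 log₂ n)`, then the number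
   of gates is at least `n ^ (3 / 2) / (600 (log₂ n) ^ 2)`, and, if it is at most `n ^ 2`, the mean of
   `sqrtSupp` is at least `n ^ 2 / (600 (log₂ n) ^ 2)`.

So random depth two threshold circuits, formulas of linear inequalities, and branching programs whose
nodes test linear inequalities, need `n ^ (3 / 2 - o (1))` gates, also if the inequalities are
dense, and also if about `n / log n` further threshold gates may be used in any arrangement.

Proof. `2 ^ k ≈ n / 2` bits `z y` are encoded in the last `n` numbers, and each of the first `n`
numbers can ask for one of them. The first `n` numbers are random, and one of them, the `i`-th, will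
be used for the question. By the Littlewood-Offord problem (Sperner's theorem) a gate without wires
from other gates does not depend on the question, except with a probability whose sum over the `i` is
at most `2 k √w`. If few gates remain, then the output has few subfunctions, but it has to give
nearly all the `2 ^ k` bits. The use of the Littlewood-Offord problem for threshold circuits with few
gates is due to Kane and Williams (for Andreev's function).
-/

set_option autoImplicit false

namespace Pool.Agent.Results.MP_8f87b2_lc.LinearInequalityGates

open Pool.Agent.TH697.Form (IsProb)
open Pool.Agent.TH697.Row (ApproximatesOn)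
open Pool.Agent.TH697.Form.ThreeSum (Item Valid)
open Pool.Agent.TH457.Ary.ZeroSum (zeroSum)
open Pool.Agent.L0h73.LT (Circuit FewSub Simple)

theorem result :
    (∀ n s D : ℕ, 40 ≤ n → 1 ≤ D →
      ∀ (Ω : Type) [Fintype Ω] (μ : Ω → ℝ), IsProb μ →
      ∀ P : Ω → Circuit n s, (∀ r, FewSub D (P r).top) →
        ApproximatesOn μ (fun r => (P r).eval) (Valid n n) (zeroSum n) →
        (n : ℝ) ^ 2 ≤ 25 * (n * Real.logb 2 (3 * D) + Real.logb 2 (((s : ℝ) + 1) * D * n) *
          ∑ r, μ r * (n * (P r).upper + 2 * Real.logb 2 n * (P r).sqrtSupp))) ∧
    (∀ n s : ℕ, 10000 ≤ n →
      ∀ (Ω : Type) [Fintype Ω] (μ : Ω → ℝ), IsProb μ →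
      ∀ P : Ω → Circuit n s, (∀ r, Simple (P r).top) →
        ApproximatesOn μ (fun r => (P r).eval) (Valid n n) (zeroSum n) →
        ∑ r, μ r * (P r).upper ≤ n / (700 * Real.logb 2 n) →
        (n : ℝ) * √(n : ℝ) ≤ 600 * Real.logb 2 n ^ 2 * s ∧
        (s ≤ n ^ 2 → (n : ℝ) ^ 2 ≤ 600 * Real.logb 2 n ^ 2 * ∑ r, μ r * (P r).sqrtSupp)) := by
  refine ⟨?_, ?_⟩
  · intro n s D hn hD Ω _ μ hμ P hP hA
    exact Pool.Agent.L0h73.LT.main hn hD μ hμ P hP hA
  · intro n s hn Ω _ μ hμ P hP hA hU
    have hL := (Pool.Agent.L0h73.LT.log_bounds hn).1
    have hU' : 700 * Real.logb 2 n * ∑ r, μ r * (P r).upper ≤ n := by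
      rw [le_div_iff₀ (by linarith)] at hU
      linarith
    exact ⟨Pool.Agent.L0h73.LT.gates_bound hn μ hμ P hP hA hU',
      fun hs => Pool.Agent.L0h73.LT.mean_bound hn hs μ hμ P hP hA hU'⟩

end Pool.Agent.Results.MP_8f87b2_lc.LinearInequalityGates
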