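import Mathlib
import Pool.Agent.L0h78.PL.Core

/-!
For every linear equation in `k ≥ 3` different entries of a sorted list of integers (integer 3SUM
among them) ideal parallel machines with running time `o(log n / log log n)` need
`n ^ (⌈k / 2⌉ - o(1))` processors, on average, randomness allowed.
-/

namespace Pool.Agent.Results.MP_8f87b2_lc.ParallelLinearEquations

open Pool.Agent.W964.Wd Pool.Agent.L0h78.PL Finset

open Classical in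
theorem result (k : ℕ) (hk : 3 ≤ k) (c : Fin k → ℤ) (d : ℤ) (hc : ∀ j, c j ≠ 0)
    (hsol : ∃ x : Fin k → ℤ, ∑ j, c j * x j = d) (ε : ℝ) (hε : 0 < ε) (hε1 : ε ≤ 1) (K : ℕ) :
    ∃ δ : ℝ, 0 < δ ∧ ∃ n₀ : ℕ, ∀ n : ℕ, n₀ ≤ n →
      ∃ (Ξ : Type) (_ : Fintype Ξ) (μ : Ξ → ℝ) (x x' : Ξ → Fin n → ℤ),
        (∀ ξ, 0 ≤ μ ξ) ∧ ∑ ξ, μ ξ = 1 ∧
        (∀ ξ, μ ξ ≠ 0 → Inst k n (x ξ) ∧ ¬ Yes c d (x ξ) ∧ Inst k n (x' ξ) ∧ Yes c d (x' ξ)) ∧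
        ∀ T P : ℕ, 1 ≤ T → T * Real.log (Real.log n) ≤ δ * Real.log n →
          (P : ℝ) ≤ (n : ℝ) ^ (((k + 1) / 2 : ℕ) - ε) →
          (∀ M : Machine ℤ (Fin n) P, M.Lists (n ^ K) →
            ∑ ξ, μ ξ * (if M.result T (x ξ) ≠ M.result T (x' ξ) then (1 : ℝ) else 0) ≤
              (n : ℝ) ^ (-(ε / 3))) ∧
          (∀ R : RandMachine ℤ (Fin n) P, R.Lists (n ^ K) →
            ∃ z : Fin n → ℤ, Inst k n z ∧
              R.success T z (Yes c d z) ≤ 1 / 2 + (n : ℝ) ^ (-(ε / 3))) := by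
  obtain ⟨l, rfl⟩ : ∃ l, k = l + 1 := ⟨k - 1, by omega⟩
  obtain ⟨δ, hδ, n₀, h⟩ := core (K := l) (by omega) c d hc hsol ε hε hε1 K
  refine ⟨δ, hδ, n₀, fun n hn => ?_⟩
  obtain ⟨Ξ, fΞ, μ, x, x', h0, h1, h2, h3⟩ := h n hn
  refine ⟨Ξ, fΞ, μ, x, x', h0, h1, h2, fun T P hT hTn hP => ⟨fun M hM => ?_, fun R hR => ?_⟩⟩
  · exact h3 T P hT hTn hP M hM
  · exact rand_pairs R T μ h0 h1 x x' (Inst (l + 1) n) (Yes c d) h2 (by positivity)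
      (fun ω => h3 T P hT hTn hP (R.mach ω) (hR ω))

end Pool.Agent.Results.MP_8f87b2_lc.ParallelLinearEquations
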