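import Mathlib
import Pool.Agent.L0h73.UN.Final

/-!
# Integer 3SUM: circuits of unate gates and of polynomial gates

The input consists of `2 n` distinct integers of absolute value at most `(2 n) ^ 3` (`Valid`); do
three different ones of them have the sum zero (`zeroSum`)? Let `x` be the list of the first `n`
numbers, and let `b` be the list of the last `n` numbers.

A low gate of a circuit (`Circuit`) is an arbitrary function `f b x` of all the numbers which is
locally monotone (`LocMono`): if `b` and all but one of the numbers `x i` are fixed, then it is
monotone or antitone in the remaining number. Its price is its total influence: the maximum, over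
all `b` and all pairs `u i`, `v i` of values of each `x i`, of the total influence of the function of
`n` bits which arises if `x i` takes the values `u i` and `v i` only (`InfluenceLe`). The other gates
(`upper` is their number) add arbitrary functions of the single numbers `x i` and arbitrary real
weights of the earlier gates with the value `true`, and compare the sum with a threshold, which is an
arbitrary function of `b`. The output is a function of the values of the gates and of `b`.

1. Let `P r` be a random circuit (with the probability `μ r`) which gives the right answer with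
   probability at least `2 / 3` for every input, let its output function have at most
   `D ^ (|A| + 1)` subfunctions on every set `A` of gates (`FewSub`), and let the total influence of
   its low gate `j` be at most `I r j`. Then
   `n ^ 2 ≤ 25 (n log₂ (3 D) + log₂ (2 (s + 1) D n) * 𝔼 (n * upper + ∑ j, I r j))`,
   where `s` is the number of gates.
2. Let `n ≥ 10000`, let the mean of `upper` be at most `n / (700 log₂ n)`, and let the output be
   a threshold function with arbitrary weights, or a symmetric function, of the gates, or a formula
   over the full binary basis or a branching program (with at most `n ^ 2` nodes) which reads every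
   gate at most once (`Simple`). If `s ≤ n ^ 2`, then `n ^ 2 ≤ 320 log₂ n * 𝔼 ∑ j, I r j`.
3. If, in addition, the low gates are unate (for every `b` and `i`, monotone in `x i`, or antitone
   in `x i`, whatever the other `x i` are), then `n ^ (3 / 2) ≤ 320 log₂ n * s`, and, if
   `s ≤ n ^ 2`, then `n ^ 2 ≤ 320 log₂ n * 𝔼 ∑ j, √(w j)`, where `w j` is the number of the `x i`
   which have an influence on the low gate `j`.
4. If, in addition to the conditions of 2, every low gate compares, for every `b`, a polynomial of
   degree at most `d`, without squares of variables, of monotone or antitone functions of the `x i`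
   with a threshold (all this may depend on `b`, `PolyGate`), then
   `n ^ (1 + 2 ^ (-d)) ≤ 640 log₂ n * s`.

So for instance random formulas, branching programs and depth two circuits need
`n ^ (3 / 2) / (320 log₂ n)` gates also if every gate may be an arbitrary function of all the
numbers which is monotone in each `x i`.

Proof. `2 ^ k ≈ n / 2` bits are encoded in `b`, and each `x i` can ask for one of them. All the `x i`
but one are random junk, very large or very small; the remaining number asks the question. If a
locally monotone gate depends on the question, then it takes different values if the question is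
replaced by very large and by very small junk; so the sum over `i` of the probabilities of this is at
most the total influence, which is at most `√w` for unate functions, and at most `2 w ^ (1 - 2 ^ (-d))`
for polynomials. If few gates remain, then the output has few subfunctions, but it has to give nearly
all the bits.
-/

set_option autoImplicit false

namespace Pool.Agent.Results.MP_8f87b2_lc.UnateGates

open Finset
open Pool.Agent.TH697.Form (IsProb)
open Pool.Agent.TH697.Row (ApproximatesOn)
open Pool.Agent.TH697.Form.ThreeSum (Item Valid)
open Pool.Agent.TH457.Ary.ZeroSum (zeroSum)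
open Pool.Agent.L0h73.LT (FewSub Simple)
open Pool.Agent.L0h73.UN (Circuit LocMono InfluenceLe Unate PolyGate supp)

theorem result :
    (∀ n s D : ℕ, 40 ≤ n → 1 ≤ D →
      ∀ (Ω : Type) [Fintype Ω] (μ : Ω → ℝ), IsProb μ →
      ∀ P : Ω → Circuit n s, (∀ r, FewSub D (P r).top) →
      ∀ I : Ω → Fin s → ℝ, (∀ r j, (P r).low j = true →
          LocMono ((P r).fn j) ∧ InfluenceLe ((P r).fn j) (I r j)) →
        ApproximatesOn μ (fun r => (P r).eval) (Valid n n) (zeroSum n) →
        (n : ℝ) ^ 2 ≤ 25 * (n * Real.logb 2 (3 * D) + Real.logb 2 (2 * ((s : ℝ) + 1) * D * n) *
          ∑ r, μ r * (n * (P r).upper +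
            ∑ j ∈ univ.filter (fun j => (P r).low j = true), I r j))) ∧
    (∀ n s : ℕ, 10000 ≤ n →
      ∀ (Ω : Type) [Fintype Ω] (μ : Ω → ℝ), IsProb μ →
      ∀ P : Ω → Circuit n s, (∀ r, Simple (P r).top) →
        ApproximatesOn μ (fun r => (P r).eval) (Valid n n) (zeroSum n) →
        ∑ r, μ r * (P r).upper ≤ n / (700 * Real.logb 2 n) →
        (∀ I : Ω → Fin s → ℝ, (∀ r j, (P r).low j = true →
            LocMono ((P r).fn j) ∧ InfluenceLe ((P r).fn j) (I r j)) → s ≤ n ^ 2 →
          (n : ℝ) ^ 2 ≤ 320 * Real.logb 2 n *
            ∑ r, μ r * ∑ j ∈ univ.filter (fun j => (P r).low j = true), I r j) ∧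
        ((∀ r j, (P r).low j = true → Unate ((P r).fn j)) →
          (n : ℝ) * √(n : ℝ) ≤ 320 * Real.logb 2 n * s ∧
          (s ≤ n ^ 2 → (n : ℝ) ^ 2 ≤ 320 * Real.logb 2 n *
            ∑ r, μ r * ∑ j ∈ univ.filter (fun j => (P r).low j = true),
              √(supp ((P r).fn j) : ℝ))) ∧
        ∀ d : ℕ, (∀ r j, (P r).low j = true → PolyGate d ((P r).fn j)) →
          (n : ℝ) ^ (1 + (1 / 2 : ℝ) ^ d) ≤ 640 * Real.logb 2 n * s) := by
  refine ⟨?_, ?_⟩
  · intro n s D hn hD Ω _ μ hμ P hP I hL hA
    exact Pool.Agent.L0h73.UN.main hn hD μ hμ P hP I hL hA
  · intro n s hn Ω _ μ hμ P hP hA hU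
    have hL := (Pool.Agent.L0h73.LT.log_bounds hn).1
    have hU' : 700 * Real.logb 2 n * ∑ r, μ r * (P r).upper ≤ n := by
      rw [le_div_iff₀ (by linarith)] at hU
      linarith
    refine ⟨fun I hI hs => Pool.Agent.L0h73.UN.mean_bound hn hs μ hμ P hP I hI hA hU',
      fun h => ⟨Pool.Agent.L0h73.UN.unate_bound hn μ hμ P hP h hA hU', fun hs =>
        Pool.Agent.L0h73.UN.mean_bound hn hs μ hμ P hP (fun r j => √(supp ((P r).fn j) : ℝ))
          (fun r j hj => ⟨(h r j hj).locMono, (h r j hj).influence⟩) hA hU'⟩,
      fun d h => Pool.Agent.L0h73.UN.poly_bound hn μ hμ P hP h hA hU'⟩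

end Pool.Agent.Results.MP_8f87b2_lc.UnateGates
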